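import Pool.Agent.H58.FreeTree.Defs
import Pool.Agent.H58.FreeTree.NotCompact
import Pool.Agent.H58.FreeTree.CondA

open Set Pool.Agent.H58.FreeTree

namespace Pool.Agent.Results.MP_13bb8c_an.UniformRegularity

/-- There are a compact `ℝ`-tree `T` and a bounded subset `W` of its Lipschitz free space which
satisfies condition (a) and is uniformly regular, but is not relatively weakly compact. -/
theorem result : ∃ (T : Type) (_ : MetricSpace T) (o : T) (W : Set (Free o)),
    CompactSpace T ∧ IsRTree T ∧ Bornology.IsBounded W ∧ CondA W ∧ UniformlyRegular W ∧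
      ¬ RelWeaklyCompact W := by
  refine ⟨Tree, inferInstance, root, range w, inferInstance, tree_isRTree, ?_, condA,
    uniformlyRegular, not_relWeaklyCompact⟩
  refine (Metric.isBounded_iff_subset_closedBall 0).mpr ⟨2, ?_⟩
  rintro _ ⟨n, rfl⟩
  rw [mem_closedBall_zero_iff]
  exact norm_w_le n

end Pool.Agent.Results.MP_13bb8c_an.UniformRegularity
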